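import Pool.Agent.Helper8_BRW.Stmts

set_option autoImplicit false

open MeasureTheory Set Filter

namespace BRW.H9

theorem cont_V {ξ : ℤ → ℝ} {y : ℤ} {v : ℝ → ℤ → ℝ} (hv : IsV ξ y v) (x : ℤ) :
    ContinuousOn (fun t => v t x) (Ici 0) := by
  intro t ht
  rcases lt_or_ge x y with hx | hx
  · exact (hv.deriv t x ht hx).continuousWithinAt
  · have h1 : ContinuousWithinAt (fun _ : ℝ => ind y x) (Ici 0) t := continuousWithinAt_const
    refine h1.congr (fun s hs => hv.stat s x hs (by simpa using hx)) ?_
    exact hv.stat t x ht (by simpa using hx)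

theorem cont_W {ξ : ℤ → ℝ} {y : ℤ} {w : ℝ → ℤ → ℝ} (hw : IsW ξ y w) (x : ℤ) :
    ContinuousOn (fun t => w t x) (Ici 0) :=
  fun t ht => (hw.deriv t x ht (mem_univ x)).continuousWithinAt

theorem cont_Lin {ξ : ℤ → ℝ} {b : ℝ} {y : ℤ} {h : ℝ → ℤ → ℝ} (hh : IsLin ξ b y h) (x : ℤ) :
    ContinuousOn (fun t => h t x) (Ici 0) := by
  intro t ht
  rcases lt_or_ge x y with hx | hx
  · exact (hh.deriv t x ht hx).continuousWithinAt
  · have h1 : ContinuousWithinAt (fun _ : ℝ => (1 : ℝ)) (Ici 0) t := continuousWithinAt_const
    exact h1.congr (fun s hs => hh.bdry s x hs hx) (hh.bdry t x ht hx)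

theorem cmp (hmax : MaxStmt) : CMPStmt := by
  intro a b ξ henv y v hv
  obtain ⟨ha, hξ⟩ := henv
  have hξ0 : ∀ x, 0 ≤ ξ x := fun x => ha.le.trans (hξ x).1
  have hb : 0 ≤ b := (hξ0 0).trans (hξ 0).2
  have hsub : ∀ t : ℝ, Icc (0 : ℝ) t ⊆ Ici 0 := fun t => Icc_subset_Ici_self
  constructor
  · intro w hw t x ht
    have key := hmax (fun t x => w t x - v t x) t b 1 (fun _ => 0) hb (fun _ => le_rfl)
      (by
        intro s z hs _
        have h1 := hw.le_one s z hs
        have h2 := hv.nonneg s z hs
        show w s z - v s z ≤ 1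
        linarith)
      (by
        intro s z hs _ hs0
        have h0 : s = 0 := le_antisymm hs0 hs
        subst h0
        show w 0 z - v 0 z ≤ 0
        rw [hw.init, hv.init, sub_self])
      (fun z => ((cont_W hw z).sub (cont_V hv z)).mono (hsub t))
      (by
        intro s z hs _ hpos
        change 0 < w s z - v s z at hpos
        have hz : z < y := by
          by_contra hz
          have h1 : v s z = 1 := by
            rw [hv.stat s z hs (by simpa using hz), ind, if_pos (not_lt.mp hz)]
          have h2 := hw.le_one s z hs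
          linarith
        have hs' : Ici s ⊆ Ici 0 := Ici_subset_Ici.mpr hs
        refine ⟨_, ((hw.deriv s z hs (mem_univ z)).sub (hv.deriv s z hs hz)).mono hs', ?_⟩
        show lap (w s) z + ξ z * (w s z * (1 - w s z)) -
          (lap (v s) z + ξ z * (v s z * (1 - v s z))) ≤
          (max (w s (z + 1) - v s (z + 1)) 0 + max (w s (z - 1) - v s (z - 1)) 0) / 2 +
            b * (w s z - v s z)
        have h1 := le_max_left (w s (z + 1) - v s (z + 1)) 0
        have h2 := le_max_left (w s (z - 1) - v s (z - 1)) 0
        have h3 : ξ z * (w s z * (1 - w s z)) - ξ z * (v s z * (1 - v s z)) ≤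
            b * (w s z - v s z) := by
          have h4 : ξ z * (w s z * (1 - w s z)) - ξ z * (v s z * (1 - v s z)) =
              ξ z * ((w s z - v s z) * (1 - w s z - v s z)) := by ring
          have h5 : (w s z - v s z) * (1 - w s z - v s z) ≤ w s z - v s z := by
            have h6 := hw.nonneg s z hs
            have h7 := hv.nonneg s z hs
            nlinarith
          calc _ = ξ z * ((w s z - v s z) * (1 - w s z - v s z)) := h4
            _ ≤ ξ z * (w s z - v s z) := mul_le_mul_of_nonneg_left h5 (hξ0 z)
            _ ≤ b * (w s z - v s z) := mul_le_mul_of_nonneg_right (hξ z).2 hpos.le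
        unfold lap
        linarith)
      t x ht le_rfl
    have h1 : w t x - v t x ≤ 0 := key
    linarith
  · intro h hh t x ht
    have key := hmax (fun t x => v t x - h t x) t b 1 (fun _ => 0) hb (fun _ => le_rfl)
      (by
        intro s z hs _
        have h1 := hv.le_one s z hs
        have h2 := hh.nonneg s z hs
        show v s z - h s z ≤ 1
        linarith)
      (by
        intro s z hs _ hs0
        have h0 : s = 0 := le_antisymm hs0 hs
        subst h0
        show v 0 z - h 0 z ≤ 0
        rcases lt_or_ge z y with hz | hz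
        · rw [hv.init, hh.init z hz, ind, if_neg (not_le.mpr hz), sub_self]
        · rw [hv.init, hh.bdry 0 z le_rfl hz, ind, if_pos hz, sub_self])
      (fun z => ((cont_V hv z).sub (cont_Lin hh z)).mono (hsub t))
      (by
        intro s z hs _ hpos
        change 0 < v s z - h s z at hpos
        have hz : z < y := by
          by_contra hz
          have h1 : h s z = 1 := hh.bdry s z hs (not_lt.mp hz)
          have h2 := hv.le_one s z hs
          linarith
        have hs' : Ici s ⊆ Ici 0 := Ici_subset_Ici.mpr hs
        refine ⟨_, ((hv.deriv s z hs hz).sub (hh.deriv s z hs hz)).mono hs', ?_⟩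
        show lap (v s) z + ξ z * (v s z * (1 - v s z)) - (lap (h s) z + ξ z * h s z) ≤
          (max (v s (z + 1) - h s (z + 1)) 0 + max (v s (z - 1) - h s (z - 1)) 0) / 2 +
            b * (v s z - h s z)
        have h1 := le_max_left (v s (z + 1) - h s (z + 1)) 0
        have h2 := le_max_left (v s (z - 1) - h s (z - 1)) 0
        have h3 : ξ z * (v s z * (1 - v s z)) - ξ z * h s z ≤ b * (v s z - h s z) := by
          have h5 : v s z * (1 - v s z) - h s z ≤ v s z - h s z := by
            have h7 := hv.nonneg s z hs
            nlinarith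
          calc _ = ξ z * (v s z * (1 - v s z) - h s z) := by ring
            _ ≤ ξ z * (v s z - h s z) := mul_le_mul_of_nonneg_left h5 (hξ0 z)
            _ ≤ b * (v s z - h s z) := mul_le_mul_of_nonneg_right (hξ z).2 hpos.le
        unfold lap
        linarith)
      t x ht le_rfl
    have h1 : v t x - h t x ≤ 0 := key
    linarith

end BRW.H9
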