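import Pool.Agent.Helper8_BRW.Stmts

set_option autoImplicit false

open MeasureTheory Set Filter

namespace BRW.H9

theorem low_gen (g d : ℕ → ℝ → ℝ) (h0 : ∀ t, 0 ≤ t → Real.exp (-t) ≤ g 0 t)
    (hinit : ∀ n, 0 ≤ g (n + 1) 0)
    (hd : ∀ n t, 0 ≤ t → HasDerivWithinAt (g (n + 1)) (d n t) (Ici 0) t)
    (hlow : ∀ n t, 0 ≤ t → g n t / 2 - g (n + 1) t ≤ d n t) (n : ℕ) :
    ∀ t, 0 ≤ t → Real.exp (-t) * (t / 2) ^ n / n.factorial ≤ g n t := by
  induction n with
  | zero =>
    intro t ht
    simpa using h0 t ht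
  | succ n ih =>
    intro t ht
    -- the function `e^t g(n+1) - (t/2)^(n+1)/(n+1)!` is monotone
    have hder : ∀ s, 0 ≤ s → HasDerivWithinAt
        (fun s => Real.exp s * g (n + 1) s - (s / 2) ^ (n + 1) / (n + 1).factorial)
        (Real.exp s * g (n + 1) s + Real.exp s * d n s - (s / 2) ^ n / (2 * n.factorial))
        (Ici 0) s := by
      intro s hs
      have h1 : HasDerivWithinAt (fun s => Real.exp s * g (n + 1) s)
          (Real.exp s * g (n + 1) s + Real.exp s * d n s) (Ici 0) s :=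
        ((Real.hasDerivAt_exp s).hasDerivWithinAt).mul (hd n s hs)
      have h2 : HasDerivWithinAt (fun s : ℝ => (s / 2) ^ (n + 1) / (n + 1).factorial)
          ((s / 2) ^ n / (2 * n.factorial)) (Ici 0) s := by
        have h3 : HasDerivAt (fun s : ℝ => (s / 2) ^ (n + 1) / (n + 1).factorial)
            (((n + 1 : ℕ) : ℝ) * (s / 2) ^ n * (1 / 2) / (n + 1).factorial) s := by
          have h4 : HasDerivAt (fun s : ℝ => s / 2) (1 / 2) s := (hasDerivAt_id s).div_const 2
          have h5 := (h4.pow (n + 1)).div_const ((n + 1).factorial : ℝ)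
          rwa [Nat.add_sub_cancel] at h5
        have h6 : ((n + 1 : ℕ) : ℝ) * (s / 2) ^ n * (1 / 2) / (n + 1).factorial =
            (s / 2) ^ n / (2 * n.factorial) := by
          rw [Nat.factorial_succ]
          push_cast
          have : (n.factorial : ℝ) ≠ 0 := by positivity
          have : ((n : ℝ) + 1) ≠ 0 := by positivity
          field_simp
        rw [h6] at h3
        exact h3.hasDerivWithinAt
      exact h1.sub h2
    have hmono : MonotoneOn
        (fun s => Real.exp s * g (n + 1) s - (s / 2) ^ (n + 1) / (n + 1).factorial) (Ici 0) := by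
      refine monotoneOn_of_hasDerivWithinAt_nonneg (convex_Ici 0)
        (fun s hs => (hder s hs).continuousWithinAt)
        (f' := fun s => Real.exp s * g (n + 1) s + Real.exp s * d n s -
          (s / 2) ^ n / (2 * n.factorial)) ?_ ?_
      · intro s hs
        have hs' : s ∈ Ici (0 : ℝ) := interior_subset hs
        exact (hder s hs').mono interior_subset
      · intro s hs
        have hs' : (0 : ℝ) ≤ s := interior_subset hs
        have h1 := ih s hs'
        have h2 := hlow n s hs'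
        have h3 : (s / 2) ^ n / n.factorial ≤ Real.exp s * g n s := by
          have h4 := mul_le_mul_of_nonneg_left h1 (Real.exp_pos s).le
          have h5 : Real.exp s * (Real.exp (-s) * (s / 2) ^ n / n.factorial) =
              (s / 2) ^ n / n.factorial := by
            rw [mul_div_assoc, ← mul_assoc, ← Real.exp_add, add_neg_cancel, Real.exp_zero, one_mul]
          rwa [h5] at h4
        have h6 := mul_le_mul_of_nonneg_left h2 (Real.exp_pos s).le
        have h7 : (s / 2) ^ n / (2 * n.factorial) = (s / 2) ^ n / n.factorial / 2 := by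
          rw [div_div, mul_comm]
        show 0 ≤ Real.exp s * g (n + 1) s + Real.exp s * d n s - (s / 2) ^ n / (2 * n.factorial)
        rw [h7]
        nlinarith
    have h1 := hmono (mem_Ici.mpr (le_refl (0 : ℝ))) (mem_Ici.mpr ht) ht
    simp only [Real.exp_zero, one_mul, zero_div] at h1
    rw [zero_pow (Nat.succ_ne_zero n), zero_div, sub_zero] at h1
    have h2 : (t / 2) ^ (n + 1) / (n + 1).factorial ≤ Real.exp t * g (n + 1) t := by
      have := hinit n
      linarith
    have h3 := mul_le_mul_of_nonneg_left h2 (Real.exp_pos (-t)).le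
    rw [← mul_assoc, ← Real.exp_add, neg_add_cancel, Real.exp_zero, one_mul, ← mul_div_assoc] at h3
    exact h3

theorem low : LOWStmt := by
  intro a b ξ henv y
  obtain ⟨ha, hξ⟩ := henv
  have hξ0 : ∀ x, 0 ≤ ξ x := fun x => ha.le.trans (hξ x).1
  have hlt : ∀ n : ℕ, y - ((n + 1 : ℕ) : ℤ) < y := fun n => by omega
  have hadd : ∀ n : ℕ, y - ((n + 1 : ℕ) : ℤ) + 1 = y - (n : ℤ) := fun n => by push_cast; ring
  constructor
  · intro v hv t n ht
    refine low_gen (fun n t => v t (y - n)) (fun n t => lap (v t) (y - ((n + 1 : ℕ) : ℤ)) +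
      ξ (y - ((n + 1 : ℕ) : ℤ)) * (v t (y - ((n + 1 : ℕ) : ℤ)) *
        (1 - v t (y - ((n + 1 : ℕ) : ℤ))))) ?_ ?_ ?_ ?_ n t ht
    · intro t ht
      have h1 : v t (y - ((0 : ℕ) : ℤ)) = 1 := by
        rw [hv.stat t _ ht (by simp), ind, if_pos (by simp)]
      rw [h1]
      exact Real.exp_le_one_iff.mpr (by linarith)
    · intro n
      exact hv.nonneg 0 _ le_rfl
    · intro n t ht
      exact hv.deriv t _ ht (hlt n)
    · intro n t ht
      show v t (y - (n : ℤ)) / 2 - v t (y - ((n + 1 : ℕ) : ℤ)) ≤ _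
      rw [lap, hadd n]
      have h1 := hv.nonneg t (y - ((n + 1 : ℕ) : ℤ) - 1) ht
      have h2 := hv.nonneg t (y - ((n + 1 : ℕ) : ℤ)) ht
      have h3 := hv.le_one t (y - ((n + 1 : ℕ) : ℤ)) ht
      have h4 : 0 ≤ ξ (y - ((n + 1 : ℕ) : ℤ)) * (v t (y - ((n + 1 : ℕ) : ℤ)) *
        (1 - v t (y - ((n + 1 : ℕ) : ℤ)))) :=
        mul_nonneg (hξ0 _) (mul_nonneg h2 (by linarith))
      linarith
  · intro h hh t n ht
    refine low_gen (fun n t => h t (y - n)) (fun n t => lap (h t) (y - ((n + 1 : ℕ) : ℤ)) +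
      ξ (y - ((n + 1 : ℕ) : ℤ)) * h t (y - ((n + 1 : ℕ) : ℤ))) ?_ ?_ ?_ ?_ n t ht
    · intro t ht
      have h1 : h t (y - ((0 : ℕ) : ℤ)) = 1 := hh.bdry t _ ht (by simp)
      rw [h1]
      exact Real.exp_le_one_iff.mpr (by linarith)
    · intro n
      exact hh.nonneg 0 _ le_rfl
    · intro n t ht
      exact hh.deriv t _ ht (hlt n)
    · intro n t ht
      show h t (y - (n : ℤ)) / 2 - h t (y - ((n + 1 : ℕ) : ℤ)) ≤ _
      rw [lap, hadd n]
      have h1 := hh.nonneg t (y - ((n + 1 : ℕ) : ℤ) - 1) ht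
      have h2 := hh.nonneg t (y - ((n + 1 : ℕ) : ℤ)) ht
      have h4 : 0 ≤ ξ (y - ((n + 1 : ℕ) : ℤ)) * h t (y - ((n + 1 : ℕ) : ℤ)) :=
        mul_nonneg (hξ0 _) h2
      linarith

end BRW.H9
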